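import Mathlib

set_option autoImplicit false

open Set Filter Topology

namespace Pool.Agent.Results.MP_c19edd_an.CantorType

/-- The terms `x_n = 2^{-n} + (-1)^n 3^{-n}`. -/
noncomputable def x (n : ℕ) : ℝ := 1 / 2 ^ n + (-1) ^ n / 3 ^ n

/-- The achievement set `E(x_n)`: all sums of `x_n` over `n ∈ A`, `A` a set of positive integers. -/
def achievementSet : Set ℝ :=
  {s : ℝ | ∃ A : Set ℕ, A ⊆ {n | 1 ≤ n} ∧ s = ∑' n, A.indicator x n}

/-! ### Basic facts -/

/-- the tails `r_n = ∑_{k > n} x_k` in closed form -/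
noncomputable def r (n : ℕ) : ℝ := 1 / 2 ^ n - (-1) ^ n / 3 ^ n / 4

theorem r_succ (n : ℕ) : r n = x (n + 1) + r (n + 1) := by
  unfold r x
  rw [pow_succ, pow_succ, pow_succ]
  field_simp
  ring

theorem neg_one_pow_abs (n : ℕ) : |((-1 : ℝ)) ^ n| = 1 := by
  rw [abs_pow]; simp

theorem x_bounds (n : ℕ) : 1 / 2 ^ n - 1 / 3 ^ n ≤ x n ∧ x n ≤ 1 / 2 ^ n + 1 / 3 ^ n := by
  unfold x
  have h : |((-1 : ℝ)) ^ n / 3 ^ n| = 1 / 3 ^ n := by
    rw [abs_div, neg_one_pow_abs, abs_of_pos (by positivity)]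
  have := abs_le.1 h.le
  constructor <;> linarith [this.1, this.2]

theorem r_bounds (n : ℕ) : 1 / 2 ^ n - 1 / 3 ^ n / 4 ≤ r n ∧ r n ≤ 1 / 2 ^ n + 1 / 3 ^ n / 4 := by
  unfold r
  have h : |((-1 : ℝ)) ^ n / 3 ^ n| = 1 / 3 ^ n := by
    rw [abs_div, neg_one_pow_abs, abs_of_pos (by positivity)]
  have := abs_le.1 h.le
  constructor <;> linarith [this.1, this.2]

theorem pow_le (n : ℕ) : (1 : ℝ) / 3 ^ n ≤ 1 / 2 ^ n :=
  one_div_le_one_div_of_le (by positivity) (pow_le_pow_left₀ (by norm_num) (by norm_num) n)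

theorem pow_lt (n : ℕ) (hn : 1 ≤ n) : (1 : ℝ) / 3 ^ n < 1 / 2 ^ n :=
  one_div_lt_one_div_of_lt (by positivity)
    (pow_lt_pow_left₀ (by norm_num) (by norm_num) (by omega))

theorem x_pos (n : ℕ) (hn : 1 ≤ n) : 0 < x n := by
  linarith [(x_bounds n).1, pow_lt n hn]

theorem x_nonneg (n : ℕ) : 0 ≤ x n := by
  linarith [(x_bounds n).1, pow_le n]

theorem r_pos (n : ℕ) : 0 < r n := by
  have h : (0 : ℝ) < 1 / 3 ^ n := by positivity
  linarith [(r_bounds n).1, pow_le n]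

theorem gap_even (n : ℕ) (hn : Even n) : x n - r n = 5 / 4 * (1 / 3 ^ n) := by
  unfold x r
  rw [hn.neg_one_pow]
  ring

/-- positions of the left endpoints of the pieces of level `n`, indexed by `a < 2^n` -/
noncomputable def p : ℕ → ℕ → ℝ
  | 0, _ => 0
  | n + 1, a => p n (a / 2) + ((a % 2 : ℕ) : ℝ) * x (n + 1)

theorem pow_idx (a m : ℕ) : a * 2 ^ (m + 1) = 2 * (a * 2 ^ m) := by
  rw [pow_succ]; ring

theorem p_even (n a : ℕ) : p (n + 1) (2 * a) = p n a := by
  rw [p]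
  have h1 : 2 * a / 2 = a := by omega
  have h2 : 2 * a % 2 = 0 := by omega
  rw [h1, h2]
  simp

theorem p_odd (n a : ℕ) : p (n + 1) (2 * a + 1) = p n a + x (n + 1) := by
  rw [p]
  have h1 : (2 * a + 1) / 2 = a := by omega
  have h2 : (2 * a + 1) % 2 = 1 := by omega
  rw [h1, h2]
  simp

theorem spread (n a : ℕ) : ∀ m c : ℕ, c < 2 ^ m →
    |p (n + m) (a * 2 ^ m + c) - p n a - (c : ℝ) / 2 ^ (n + m)|
      ≤ (1 / 3 ^ n - 1 / 3 ^ (n + m)) / 2 := by
  intro m
  induction m with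
  | zero =>
    intro c hc
    have : c = 0 := by simpa using hc
    subst this
    simp
  | succ m ih =>
    intro c hc
    have hc2 : c / 2 < 2 ^ m := by
      rw [pow_succ] at hc; omega
    have h := ih (c / 2) hc2
    have h1 : (a * 2 ^ (m + 1) + c) / 2 = a * 2 ^ m + c / 2 := by
      rw [pow_idx]; omega
    have h2 : (a * 2 ^ (m + 1) + c) % 2 = c % 2 := by
      rw [pow_idx]; omega
    have h3 : p (n + (m + 1)) (a * 2 ^ (m + 1) + c)
        = p (n + m) (a * 2 ^ m + c / 2) + ((c % 2 : ℕ) : ℝ) * x (n + m + 1) := by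
      rw [← add_assoc, p, h1, h2]
    have hc3 : (c : ℝ) = 2 * ((c / 2 : ℕ) : ℝ) + ((c % 2 : ℕ) : ℝ) := by
      have : c = 2 * (c / 2) + c % 2 := (Nat.div_add_mod c 2).symm
      exact_mod_cast this
    have hmod : ((c % 2 : ℕ) : ℝ) = 0 ∨ ((c % 2 : ℕ) : ℝ) = 1 := by
      rcases Nat.mod_two_eq_zero_or_one c with h | h <;> rw [h] <;> simp
    have h4 : p (n + (m + 1)) (a * 2 ^ (m + 1) + c) - p n a - (c : ℝ) / 2 ^ (n + (m + 1))
        = (p (n + m) (a * 2 ^ m + c / 2) - p n a - ((c / 2 : ℕ) : ℝ) / 2 ^ (n + m))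
          + ((c % 2 : ℕ) : ℝ) * ((-1) ^ (n + m + 1) / 3 ^ (n + m + 1)) := by
      rw [h3, hc3, x, ← add_assoc, pow_succ (2 : ℝ)]
      field_simp
      ring
    rw [h4]
    refine (abs_add_le _ _).trans ?_
    have h5 : |((c % 2 : ℕ) : ℝ) * ((-1) ^ (n + m + 1) / 3 ^ (n + m + 1))| ≤ 1 / 3 ^ (n + m + 1) := by
      rw [abs_mul, abs_div, neg_one_pow_abs, abs_of_pos (by positivity : (0 : ℝ) < 3 ^ (n + m + 1))]
      have hp : (0 : ℝ) < 1 / 3 ^ (n + m + 1) := by positivity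
      rcases hmod with h | h <;> rw [h] <;> simp
    have h6 : (1 : ℝ) / 3 ^ (n + m) = 3 * (1 / 3 ^ (n + m + 1)) := by
      rw [pow_succ]; field_simp
    rw [← add_assoc]
    linarith

theorem spread' (n a m c : ℕ) (hc : c < 2 ^ m) :
    |p (n + m) (a * 2 ^ m + c) - p n a - (c : ℝ) / 2 ^ (n + m)| ≤ 1 / 3 ^ n / 2 := by
  have h := spread n a m c hc
  have hp : (0 : ℝ) < 1 / 3 ^ (n + m) := by positivity
  linarith

theorem contain (n a : ℕ) : ∀ m c : ℕ, c < 2 ^ m → p n a ≤ p (n + m) (a * 2 ^ m + c) ∧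
    p (n + m) (a * 2 ^ m + c) + r (n + m) ≤ p n a + r n := by
  intro m
  induction m with
  | zero =>
    intro c hc
    have : c = 0 := by simpa using hc
    subst this
    simp
  | succ m ih =>
    intro c hc
    have hc2 : c / 2 < 2 ^ m := by
      rw [pow_succ] at hc; omega
    have h := ih (c / 2) hc2
    have h1 : (a * 2 ^ (m + 1) + c) / 2 = a * 2 ^ m + c / 2 := by
      rw [pow_idx]; omega
    have h2 : (a * 2 ^ (m + 1) + c) % 2 = c % 2 := by
      rw [pow_idx]; omega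
    have h3 : p (n + (m + 1)) (a * 2 ^ (m + 1) + c)
        = p (n + m) (a * 2 ^ m + c / 2) + ((c % 2 : ℕ) : ℝ) * x (n + m + 1) := by
      rw [← add_assoc, p, h1, h2]
    have hr := r_succ (n + m)
    have hx := x_nonneg (n + m + 1)
    rw [h3, ← add_assoc]
    have hmod : ((c % 2 : ℕ) : ℝ) = 0 ∨ ((c % 2 : ℕ) : ℝ) = 1 := by
      rcases Nat.mod_two_eq_zero_or_one c with h | h <;> rw [h] <;> simp
    rcases hmod with h4 | h4 <;> rw [h4] <;> constructor <;> linarith [h.1, h.2]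

theorem first_desc (n a m : ℕ) : p (n + m) (a * 2 ^ m) = p n a := by
  induction m with
  | zero => simp
  | succ m ih =>
    rw [← add_assoc, show a * 2 ^ (m + 1) = 2 * (a * 2 ^ m) by rw [pow_succ]; ring, p_even, ih]

theorem last_desc (n a m : ℕ) : p (n + m) (a * 2 ^ m + (2 ^ m - 1)) + r (n + m) = p n a + r n := by
  induction m with
  | zero => simp
  | succ m ih =>
    have h1 : 1 ≤ 2 ^ m := Nat.one_le_two_pow
    have h2 : a * 2 ^ (m + 1) + (2 ^ (m + 1) - 1) = 2 * (a * 2 ^ m + (2 ^ m - 1)) + 1 := by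
      rw [pow_idx, pow_succ]; omega
    rw [← add_assoc, h2, p_odd, add_assoc, ← r_succ, ih]

/-- the indices of the pieces of level `n` that meet the open interval `(u, v)` -/
noncomputable def A (n : ℕ) (u v : ℝ) : Finset ℕ :=
  (Finset.range (2 ^ n)).filter (fun a => p n a < v ∧ u < p n a + r n)

theorem mem_A (n : ℕ) (u v : ℝ) (a : ℕ) :
    a ∈ A n u v ↔ a < 2 ^ n ∧ p n a < v ∧ u < p n a + r n := by
  simp [A]

theorem A_parent (n m : ℕ) (u v u' v' : ℝ) (hu : u ≤ u') (hv : v' ≤ v) (e : ℕ)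
    (he : e ∈ A (n + m) u' v') : e / 2 ^ m ∈ A n u v := by
  rw [mem_A] at he ⊢
  have hp : 0 < 2 ^ m := by positivity
  have h1 : e = e / 2 ^ m * 2 ^ m + e % 2 ^ m := (Nat.div_add_mod' e (2 ^ m)).symm
  have h2 := contain n (e / 2 ^ m) m (e % 2 ^ m) (Nat.mod_lt _ hp)
  rw [← h1] at h2
  refine ⟨?_, by linarith [h2.1], by linarith [h2.2]⟩
  rw [Nat.div_lt_iff_lt_mul hp, ← pow_add]
  exact he.1

/-- a free subinterval -/
theorem free_interval (S : Finset ℝ) (k : ℕ) (hS : S.card ≤ k) (u v : ℝ) (huv : u < v) :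
    ∃ u' v', u ≤ u' ∧ v' ≤ v ∧ v' - u' = (v - u) / (k + 1) ∧ ∀ s ∈ S, s ∉ Ioo u' v' := by
  by_contra hcon
  push Not at hcon
  set w := (v - u) / ((k : ℝ) + 1) with hw
  have hk : (0 : ℝ) < (k : ℝ) + 1 := by positivity
  have hwpos : 0 < w := div_pos (by linarith) hk
  have htot : ((k : ℝ) + 1) * w = v - u := by rw [hw]; field_simp
  have hex : ∀ j ∈ Finset.range (k + 1), ∃ s ∈ S, s ∈ Ioo (u + j * w) (u + (j + 1) * w) := by
    intro j hj
    have hj' : (j : ℝ) + 1 ≤ (k : ℝ) + 1 := by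
      have := Finset.mem_range.1 hj
      exact_mod_cast this
    refine hcon _ _ ?_ ?_ ?_
    · have : 0 ≤ (j : ℝ) * w := by positivity
      linarith
    · have := mul_le_mul_of_nonneg_right hj' hwpos.le
      linarith
    · ring
  choose! f hf1 hf2 using hex
  have hcard : S.card < (Finset.range (k + 1)).card := by
    rw [Finset.card_range]; omega
  obtain ⟨i, hi, j, hj, hij, heq⟩ := Finset.exists_ne_map_eq_of_card_lt_of_maps_to hcard
    (f := f) (fun a ha => hf1 a ha)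
  have h1 := hf2 i hi
  have h2 := hf2 j hj
  rw [heq] at h1
  rcases lt_or_gt_of_ne hij with h | h
  · have h' : (i : ℝ) + 1 ≤ j := by exact_mod_cast h
    have := mul_le_mul_of_nonneg_right h' hwpos.le
    linarith [h1.2, h2.1]
  · have h' : (j : ℝ) + 1 ≤ i := by exact_mod_cast h
    have := mul_le_mul_of_nonneg_right h' hwpos.le
    linarith [h2.2, h1.1]



/-- `p n i - p n a₁` is close to an odd multiple of `2^{-h}` -/
def Bad (n a₁ i h : ℕ) : Prop :=
  ∃ m : ℤ, Odd m ∧ |p n i - p n a₁ - (m : ℝ) / 2 ^ h| ≤ 2 * (1 / 3 ^ n)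

theorem three_le (n k : ℕ) : (1 : ℝ) / 3 ^ (n + k) ≤ 1 / 3 ^ n :=
  one_div_le_one_div_of_le (by positivity) (pow_le_pow_right₀ (by norm_num) (by omega))

theorem three_le' (n k : ℕ) : (1 : ℝ) / 3 ^ (n + k + 1) ≤ 1 / 3 ^ n / 3 := by
  have h := three_le n k
  rw [pow_succ, ← div_div]
  linarith

theorem Bad_unique (n a₁ i h h' Q : ℕ) (hh : h < h') (hQ : h' ≤ Q)
    (hsmall : 4 * (1 / 3 ^ n : ℝ) < 1 / 2 ^ Q) (hb : Bad n a₁ i h) (hb' : Bad n a₁ i h') : False := by
  obtain ⟨m, hm, h1⟩ := hb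
  obtain ⟨m', hm', h1'⟩ := hb'
  obtain ⟨d, rfl⟩ : ∃ d, h' = h + (d + 1) := ⟨h' - h - 1, by omega⟩
  have h2 : |(m : ℝ) / 2 ^ h - (m' : ℝ) / 2 ^ (h + (d + 1))| ≤ 4 * (1 / 3 ^ n) := by
    rw [abs_le] at *
    constructor <;> linarith [h1.1, h1.2, h1'.1, h1'.2]
  have h3 : (m : ℝ) / 2 ^ h - (m' : ℝ) / 2 ^ (h + (d + 1))
      = ((m * 2 ^ (d + 1) - m' : ℤ) : ℝ) / 2 ^ (h + (d + 1)) := by
    push_cast
    rw [pow_add]
    field_simp
  have hodd : Odd (m * 2 ^ (d + 1) - m') := by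
    have : Even (m * 2 ^ (d + 1)) := by
      rw [pow_succ, ← mul_assoc]
      exact (even_two).mul_left _
    exact this.sub_odd hm'
  have hne : (m * 2 ^ (d + 1) - m') ≠ 0 := by
    intro h0
    rw [h0] at hodd
    exact absurd hodd (by decide)
  have h4 : (1 : ℝ) ≤ |((m * 2 ^ (d + 1) - m' : ℤ) : ℝ)| := by
    have := Int.one_le_abs hne
    exact_mod_cast this
  have hp : (0 : ℝ) < 2 ^ (h + (d + 1)) := by positivity
  rw [h3, abs_div, abs_of_pos hp] at h2
  have h5 : (1 : ℝ) / 2 ^ (h + (d + 1)) ≤ |((m * 2 ^ (d + 1) - m' : ℤ) : ℝ)| / 2 ^ (h + (d + 1)) :=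
    div_le_div_of_nonneg_right h4 hp.le
  have h6 : (1 : ℝ) / 2 ^ Q ≤ 1 / 2 ^ (h + (d + 1)) :=
    one_div_le_one_div_of_le hp (pow_le_pow_right₀ (by norm_num) hQ)
  linarith

/-- location of the gap of level `n + m + 1` -/
theorem gap_loc (n m a₁ c : ℕ) (hc : c < 2 ^ m) :
    |p (n + m) (a₁ * 2 ^ m + c) + r (n + m + 1) - p n a₁ - (2 * (c : ℝ) + 1) / 2 ^ (n + m + 1)|
      ≤ 1 / 3 ^ n / 2 + 1 / 3 ^ (n + m + 1) / 4 := by
  have h1 := spread' n a₁ m c hc
  have h2 := r_bounds (n + m + 1)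
  have h3 : (2 * (c : ℝ) + 1) / 2 ^ (n + m + 1) = (c : ℝ) / 2 ^ (n + m) + 1 / 2 ^ (n + m + 1) := by
    rw [pow_succ]; field_simp
  rw [h3]
  rw [abs_le] at *
  constructor <;> linarith [h1.1, h1.2, h2.1, h2.2]

/-- the gap is not met by pieces of the same ancestor -/
theorem gap_own (n m L a₁ c : ℕ) (hc : c < 2 ^ m)
    (hsmall : (1 / 3 ^ n : ℝ) < 1 / 2 ^ (n + m + 1)) (e : ℕ)
    (he : e ∈ A (n + m + 1 + L) (p (n + m) (a₁ * 2 ^ m + c) + r (n + m + 1))
      (p (n + m) (a₁ * 2 ^ m + c) + x (n + m + 1)))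
    (hanc : e / 2 ^ L / 2 ^ (m + 1) = a₁) : False := by
  have h1 := A_parent (n + m + 1) L _ _ _ _ le_rfl le_rfl e he
  generalize e / 2 ^ L = f at *
  rw [mem_A] at h1
  obtain ⟨-, h2, h3⟩ := h1
  have hf : f = a₁ * 2 ^ (m + 1) + f % 2 ^ (m + 1) := by
    have := (Nat.div_add_mod' f (2 ^ (m + 1))).symm
    rw [hanc] at this
    exact this
  have hlt : f % 2 ^ (m + 1) < 2 ^ (m + 1) := Nat.mod_lt _ (by positivity)
  generalize f % 2 ^ (m + 1) = f0 at *
  have hs := spread' n a₁ (m + 1) f0 hlt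
  rw [← hf, ← add_assoc] at hs
  -- the two children
  have hc0 : 2 * c < 2 ^ (m + 1) := by rw [pow_succ]; omega
  have hc1 : 2 * c + 1 < 2 ^ (m + 1) := by rw [pow_succ]; omega
  have hi0 : a₁ * 2 ^ (m + 1) + 2 * c = 2 * (a₁ * 2 ^ m + c) := by rw [pow_idx]; ring
  have hi1 : a₁ * 2 ^ (m + 1) + (2 * c + 1) = 2 * (a₁ * 2 ^ m + c) + 1 := by rw [pow_idx]; ring
  have hs0 := spread' n a₁ (m + 1) (2 * c) hc0
  have hs1 := spread' n a₁ (m + 1) (2 * c + 1) hc1
  rw [hi0, ← add_assoc, p_even] at hs0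
  rw [hi1, ← add_assoc, p_odd] at hs1
  rw [abs_le] at hs hs0 hs1
  push_cast at hs0 hs1
  have hp2 : (0 : ℝ) < 2 ^ (n + m + 1) := by positivity
  rcases lt_trichotomy f0 (2 * c) with h | h | h
  · -- strictly left
    have h4 : (f0 : ℝ) + 1 ≤ 2 * c := by exact_mod_cast h
    have h5 : ((f0 : ℝ) + 1) / 2 ^ (n + m + 1) ≤ 2 * c / 2 ^ (n + m + 1) :=
      div_le_div_of_nonneg_right h4 hp2.le
    rw [add_div] at h5
    linarith [hs.2, hs0.1]
  · subst h
    rw [hf, hi0, p_even] at h3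
    exact lt_irrefl _ h3
  · rcases eq_or_lt_of_le (Nat.succ_le_of_lt h) with h | h
    · have h' : f0 = 2 * c + 1 := h.symm
      subst h'
      rw [hf, hi1, p_odd] at h2
      exact lt_irrefl _ h2
    · have h4 : (2 * (c : ℝ) + 1) + 1 ≤ f0 := by exact_mod_cast h
      have h5 : ((2 * (c : ℝ) + 1) + 1) / 2 ^ (n + m + 1) ≤ f0 / 2 ^ (n + m + 1) :=
        div_le_div_of_nonneg_right h4 hp2.le
      rw [add_div] at h5
      linarith [hs.1, hs1.2]

/-- if two pieces with the same ancestor meet the gap, the ancestor is badly placed -/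
theorem gap_two (n m L a₁ c i : ℕ) (hc : c < 2 ^ m) (hev : Even (n + m + 1))
    (hsmall : 4 * (1 / 3 ^ n : ℝ) < 1 / 2 ^ (n + m + 1 + L)) (e e' : ℕ) (hee : e < e')
    (he : e ∈ A (n + m + 1 + L) (p (n + m) (a₁ * 2 ^ m + c) + r (n + m + 1))
      (p (n + m) (a₁ * 2 ^ m + c) + x (n + m + 1)))
    (he' : e' ∈ A (n + m + 1 + L) (p (n + m) (a₁ * 2 ^ m + c) + r (n + m + 1))
      (p (n + m) (a₁ * 2 ^ m + c) + x (n + m + 1)))
    (hanc : e / 2 ^ (m + 1 + L) = i) (hanc' : e' / 2 ^ (m + 1 + L) = i) :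
    ∃ h, n + m + 1 ≤ h ∧ h ≤ n + m + 1 + L ∧ Bad n a₁ i h := by
  have hg := gap_loc n m a₁ c hc
  have hge := gap_even _ hev
  rw [mem_A] at he he'
  obtain ⟨-, -, h2⟩ := he
  obtain ⟨-, h3, -⟩ := he'
  generalize hG : p (n + m) (a₁ * 2 ^ m + c) = G at *
  have hq : n + m + 1 + L = n + (m + 1 + L) := by ring
  have hM : ∀ f, f / 2 ^ (m + 1 + L) = i → f = i * 2 ^ (m + 1 + L) + f % 2 ^ (m + 1 + L) := by
    intro f hf
    have := (Nat.div_add_mod' f (2 ^ (m + 1 + L))).symm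
    rw [hf] at this
    exact this
  have hE := hM e hanc
  have hE' := hM e' hanc'
  have hlt : e % 2 ^ (m + 1 + L) < 2 ^ (m + 1 + L) := Nat.mod_lt _ (by positivity)
  have hlt' : e' % 2 ^ (m + 1 + L) < 2 ^ (m + 1 + L) := Nat.mod_lt _ (by positivity)
  generalize e % 2 ^ (m + 1 + L) = e0 at *
  generalize e' % 2 ^ (m + 1 + L) = e0' at *
  have hs := spread' n i (m + 1 + L) e0 hlt
  have hs' := spread' n i (m + 1 + L) e0' hlt'
  rw [← hE, ← hq] at hs
  rw [← hE', ← hq] at hs'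
  have h01 : e0 < e0' := by omega
  have hrq := r_bounds (n + m + 1 + L)
  have ht1 : (1 : ℝ) / 3 ^ (n + m + 1) ≤ 1 / 3 ^ n / 3 := three_le' n m
  have ht2 : (1 : ℝ) / 3 ^ (n + m + 1 + L) ≤ 1 / 3 ^ n := by
    have := three_le n (m + 1 + L)
    rwa [← hq] at this
  have hp3 : (0 : ℝ) < 1 / 3 ^ n := by positivity
  rw [abs_le] at hs hs' hg
  have hp2 : (0 : ℝ) < 2 ^ (n + m + 1 + L) := by positivity
  -- adjacency
  have hadj : e0' = e0 + 1 := by
    by_contra hne
    have h4 : e0 + 2 ≤ e0' := by omega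
    have h4' : (e0 : ℝ) + 2 ≤ e0' := by exact_mod_cast h4
    have h5 : ((e0 : ℝ) + 2) / 2 ^ (n + m + 1 + L) ≤ e0' / 2 ^ (n + m + 1 + L) :=
      div_le_div_of_nonneg_right h4' hp2.le
    have h6 : ((e0 : ℝ) + 2) / 2 ^ (n + m + 1 + L)
        = e0 / 2 ^ (n + m + 1 + L) + 2 * (1 / 2 ^ (n + m + 1 + L)) := by ring
    rw [h6] at h5
    linarith [hs.2, hs'.1, hrq.2]
  -- the boundary level
  obtain ⟨τ, o, ho, hto⟩ := Nat.exists_eq_two_pow_mul_odd (n := e0 + 1) (by omega)
  obtain ⟨κ, rfl⟩ := ho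
  have hτ : τ < m + 1 + L := by
    by_contra hcon
    push Not at hcon
    have h4 : 2 ^ (m + 1 + L) ≤ 2 ^ τ := Nat.pow_le_pow_right (by norm_num) hcon
    have h5 : 2 ^ τ * 1 ≤ 2 ^ τ * (2 * κ + 1) := Nat.mul_le_mul_left _ (by omega)
    omega
  obtain ⟨t, ht⟩ : ∃ t, m + 1 + L = t + 1 + τ := ⟨m + L - τ, by omega⟩
  have hκ : κ < 2 ^ t := by
    by_contra hcon
    push Not at hcon
    have h4 : 2 ^ (m + 1 + L) = 2 ^ τ * (2 * 2 ^ t) := by rw [ht]; ring
    have h5 : 2 ^ τ * (2 * 2 ^ t) ≤ 2 ^ τ * (2 * κ + 1) := Nat.mul_le_mul_left _ (by omega)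
    omega
  have hpow1 : 1 ≤ 2 ^ τ := Nat.one_le_two_pow
  have hi1 : i * 2 ^ (m + 1 + L) = 2 * (i * 2 ^ t) * 2 ^ τ := by rw [ht]; ring
  have heq : e = (2 * (i * 2 ^ t + κ)) * 2 ^ τ + (2 ^ τ - 1) := by
    have h4 : (2 * (i * 2 ^ t + κ)) * 2 ^ τ = 2 * (i * 2 ^ t) * 2 ^ τ + 2 * κ * 2 ^ τ := by ring
    have h5 : 2 ^ τ * (2 * κ + 1) = 2 * κ * 2 ^ τ + 2 ^ τ := by ring
    omega
  have heq' : e' = (2 * (i * 2 ^ t + κ) + 1) * 2 ^ τ := by
    have h4 : (2 * (i * 2 ^ t + κ) + 1) * 2 ^ τ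
        = (2 * (i * 2 ^ t + κ)) * 2 ^ τ + 2 ^ τ := by ring
    omega
  have hlev : n + m + 1 + L = (n + t + 1) + τ := by omega
  have hl := last_desc (n + t + 1) (2 * (i * 2 ^ t + κ)) τ
  have hf := first_desc (n + t + 1) (2 * (i * 2 ^ t + κ) + 1) τ
  rw [← heq, ← hlev, p_even] at hl
  rw [← heq', ← hlev, p_odd] at hf
  rw [hl] at h2
  rw [hf] at h3
  have hsp := spread' n i t κ hκ
  generalize hP : p (n + t) (i * 2 ^ t + κ) = P at *
  have hxh := x_bounds (n + t + 1)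
  have hrh := r_bounds (n + t + 1)
  have ht3 : (1 : ℝ) / 3 ^ (n + t + 1) ≤ 1 / 3 ^ n / 3 := three_le' n t
  have hk2 : (κ : ℝ) / 2 ^ (n + t) = 2 * κ / 2 ^ (n + t + 1) := by
    rw [pow_succ]; field_simp
  rw [hk2] at hsp
  rw [abs_le] at hsp
  have hne : n + t + 1 ≠ n + m + 1 := by
    intro h4
    rw [h4] at h2 h3
    linarith
  have hmain : |p n i - p n a₁ - ((2 * (c : ℝ) + 1) / 2 ^ (n + m + 1)
      - (2 * (κ : ℝ) + 1) / 2 ^ (n + t + 1))| ≤ 2 * (1 / 3 ^ n) := by
    have h5 : (2 * (κ : ℝ) + 1) / 2 ^ (n + t + 1)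
        = 2 * κ / 2 ^ (n + t + 1) + 1 / 2 ^ (n + t + 1) := add_div _ _ _
    rw [h5, abs_le]
    constructor <;> linarith [hg.1, hg.2, hsp.1, hsp.2, hxh.1, hxh.2, hrh.1, hrh.2]
  rcases lt_or_gt_of_ne hne with h4 | h4
  · -- coarser boundary: bad at level `n + m + 1`
    refine ⟨n + m + 1, le_rfl, Nat.le_add_right _ _, (2 * c + 1) - (2 * κ + 1) * 2 ^ (m - t), ?_, ?_⟩
    · have : Even ((2 * (κ : ℤ) + 1) * 2 ^ (m - t)) := by
        obtain ⟨s, hs⟩ : ∃ s, m - t = s + 1 := ⟨m - t - 1, by omega⟩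
        rw [hs, pow_succ, ← mul_assoc]
        exact (even_two).mul_left _
      have h6 : Odd (2 * (c : ℤ) + 1) := ⟨c, rfl⟩
      exact h6.sub_even this
    · convert hmain using 3
      push_cast
      have h7 : (2 : ℝ) ^ (n + m + 1) = 2 ^ (n + t + 1) * 2 ^ (m - t) := by
        rw [← pow_add]; congr 1; omega
      rw [h7]
      field_simp
  · refine ⟨n + t + 1, by omega, by omega, (2 * c + 1) * 2 ^ (t - m) - (2 * κ + 1), ?_, ?_⟩
    · have : Even ((2 * (c : ℤ) + 1) * 2 ^ (t - m)) := by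
        obtain ⟨s, hs⟩ : ∃ s, t - m = s + 1 := ⟨t - m - 1, by omega⟩
        rw [hs, pow_succ, ← mul_assoc]
        exact (even_two).mul_left _
      have h6 : Odd (2 * (κ : ℤ) + 1) := ⟨κ, rfl⟩
      exact this.sub_odd h6
    · convert hmain using 3
      push_cast
      have h7 : (2 : ℝ) ^ (n + t + 1) = 2 ^ (n + m + 1) * 2 ^ (t - m) := by
        rw [← pow_add]; congr 1; omega
      rw [h7]
      field_simp


/-! ### The descent -/

theorem step2 (D L l : ℕ) (hL : 8 * (D + 1) ≤ 3 ^ L) (u v : ℝ)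
    (huv : v - u = 5 / 4 * (1 / 3 ^ l)) (hcard : (A (l + L) u v).card ≤ D)
    (hq : (4 * ((D : ℝ) + 1)) * 2 ^ (l + L) ≤ 3 ^ (l + L)) :
    ∃ l', l + L ≤ l' ∧ ∃ u' v', u ≤ u' ∧ v' ≤ v ∧
      1 / (2 * ((D : ℝ) + 1)) * (1 / 2 ^ l') ≤ v' - u' ∧ (A l' u' v').card ≤ D := by
  set q := l + L with hqdef
  have hD : (0 : ℝ) < (D : ℝ) + 1 := by positivity
  have h3q : (0 : ℝ) < 3 ^ q := by positivity
  have h2q : (0 : ℝ) < 2 ^ q := by positivity
  have hy : (2 : ℝ) ^ q ≤ 3 ^ q / (4 * ((D : ℝ) + 1)) := by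
    rw [le_div_iff₀ (by positivity)]; linarith
  have hy1 : (1 : ℝ) ≤ 3 ^ q / (4 * ((D : ℝ) + 1)) := le_trans (one_le_pow₀ (by norm_num)) hy
  obtain ⟨l', hl1, hl2⟩ := exists_nat_pow_near hy1 (by norm_num : (1 : ℝ) < 2)
  have hql : q ≤ l' := by
    by_contra hcon
    push Not at hcon
    have : (2 : ℝ) ^ (l' + 1) ≤ 2 ^ q := pow_le_pow_right₀ (by norm_num) hcon
    linarith
  obtain ⟨M, rfl⟩ : ∃ M, l' = q + M := ⟨l' - q, by omega⟩
  have h2l : (0 : ℝ) < 2 ^ (q + M) := by positivity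
  -- inverse forms
  set T : ℝ := 1 / 2 ^ (q + M) with hT
  set t : ℝ := 1 / 3 ^ q with ht
  have hTpos : 0 < T := by positivity
  have htpos : 0 < t := by positivity
  have hTt1 : 4 * ((D : ℝ) + 1) * t ≤ T := by
    rw [hT, ht, le_div_iff₀ h2l]
    rw [le_div_iff₀ (by positivity)] at hl1
    have h : 4 * ((D : ℝ) + 1) * (1 / 3 ^ q) * 2 ^ (q + M)
        = (2 ^ (q + M) * (4 * ((D : ℝ) + 1))) / 3 ^ q := by field_simp
    rw [h, div_le_one h3q]
    exact hl1
  have hTt2 : T ≤ 8 * ((D : ℝ) + 1) * t := by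
    rw [hT, ht, div_le_iff₀ h2l]
    rw [div_lt_iff₀ (by positivity), pow_succ] at hl2
    have h : 8 * ((D : ℝ) + 1) * (1 / 3 ^ q) * 2 ^ (q + M)
        = (2 ^ (q + M) * 2 * (4 * ((D : ℝ) + 1))) / 3 ^ q := by field_simp; ring
    rw [h, one_le_div h3q]
    exact hl2.le
  have hL' : 8 * ((D : ℝ) + 1) ≤ 3 ^ L := by exact_mod_cast hL
  have hlt : (3 : ℝ) ^ L * t = 1 / 3 ^ l := by
    rw [ht, hqdef, pow_add]; field_simp
  have hTw : T ≤ v - u := by
    have h1 : 8 * ((D : ℝ) + 1) * t ≤ 3 ^ L * t := mul_le_mul_of_nonneg_right hL' htpos.le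
    have h2 : (0 : ℝ) < 1 / 3 ^ l := by positivity
    rw [huv]
    linarith
  have htt : (1 : ℝ) / 3 ^ (q + M) ≤ t := three_le q M
  -- lattice points
  classical
  let pt : ℕ → ℝ := fun a => p q a + (⌈(u - p q a) * 2 ^ (q + M)⌉ : ℝ) / 2 ^ (q + M)
  have hpt : ∀ (a : ℕ) (k : ℤ), u < p q a + (k : ℝ) / 2 ^ (q + M) →
      p q a + (k : ℝ) / 2 ^ (q + M) < u + T → p q a + (k : ℝ) / 2 ^ (q + M) = pt a := by
    intro a k h1 h2
    have hkT : (k : ℝ) / 2 ^ (q + M) * 2 ^ (q + M) = k := by field_simp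
    have hTT : T * 2 ^ (q + M) = 1 := by rw [hT]; field_simp
    have h3 : ⌈(u - p q a) * 2 ^ (q + M)⌉ = k := by
      rw [Int.ceil_eq_iff]
      constructor
      · have : ((k : ℝ) / 2 ^ (q + M) - T) * 2 ^ (q + M) < (u - p q a) * 2 ^ (q + M) :=
          mul_lt_mul_of_pos_right (by linarith) h2l
        rw [sub_mul, hkT, hTT] at this
        exact this
      · have : (u - p q a) * 2 ^ (q + M) ≤ ((k : ℝ) / 2 ^ (q + M)) * 2 ^ (q + M) :=
          mul_le_mul_of_nonneg_right (by linarith) h2l.le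
        rw [hkT] at this
        exact this
    simp only [pt, h3]
  obtain ⟨u'', v'', hu'', hv'', hlen, hfree⟩ := free_interval ((A q u v).image pt) D
    (Finset.card_image_le.trans hcard) u (u + T) (by linarith)
  have hlen2 : v'' - u'' = T / ((D : ℝ) + 1) := by rw [hlen]; congr 1; ring
  have hTD : 4 * t ≤ T / ((D : ℝ) + 1) := by
    rw [le_div_iff₀ hD]; linarith
  refine ⟨q + M, hql, u'' + t, v'' - t, by linarith, by linarith, ?_, ?_⟩
  · have : 1 / (2 * ((D : ℝ) + 1)) * T = T / ((D : ℝ) + 1) / 2 := by field_simp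
    rw [this]
    linarith
  · refine le_trans (Finset.card_le_card_of_injOn (fun e => e / 2 ^ M) ?_ ?_) hcard
    · intro e he
      exact A_parent q M u v _ _ (by linarith) (by linarith) e he
    · -- injectivity
      have key : ∀ e e' : ℕ, e < e' → e ∈ A (q + M) (u'' + t) (v'' - t) →
          e' ∈ A (q + M) (u'' + t) (v'' - t) → e / 2 ^ M = e' / 2 ^ M → False := by
        intro e e' hee he he' hanc
        have hpar := A_parent q M u v _ _ (by linarith) (by linarith) e he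
        rw [mem_A] at he he'
        obtain ⟨-, -, h2⟩ := he
        obtain ⟨-, h3, -⟩ := he'
        have hE : e = e / 2 ^ M * 2 ^ M + e % 2 ^ M := (Nat.div_add_mod' e (2 ^ M)).symm
        have hE' : e' = e / 2 ^ M * 2 ^ M + e' % 2 ^ M := by
          rw [hanc]; exact (Nat.div_add_mod' e' (2 ^ M)).symm
        have hlt1 : e % 2 ^ M < 2 ^ M := Nat.mod_lt _ (by positivity)
        have hlt2 : e' % 2 ^ M < 2 ^ M := Nat.mod_lt _ (by positivity)
        have hs := spread' q (e / 2 ^ M) M (e % 2 ^ M) hlt1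
        have hs' := spread' q (e / 2 ^ M) M (e' % 2 ^ M) hlt2
        rw [← hE] at hs
        rw [← hE'] at hs'
        generalize e % 2 ^ M = e0 at *
        generalize e' % 2 ^ M = e0' at *
        generalize e / 2 ^ M = a at *
        have h01 : e0 + 1 ≤ e0' := by omega
        have h01' : (e0 : ℝ) + 1 ≤ e0' := by exact_mod_cast h01
        have h5 : ((e0 : ℝ) + 1) / 2 ^ (q + M) ≤ e0' / 2 ^ (q + M) :=
          div_le_div_of_nonneg_right h01' h2l.le
        have hrb := r_bounds (q + M)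
        rw [abs_le] at hs hs'
        have hy0 : ((e0 : ℝ) + 1) / 2 ^ (q + M) = e0 / 2 ^ (q + M) + T := add_div _ _ _
        have hc1 : u'' < p q a + ((e0 : ℝ) + 1) / 2 ^ (q + M) := by
          rw [hy0]; linarith [hs.2, hrb.2]
        have hc2 : p q a + ((e0 : ℝ) + 1) / 2 ^ (q + M) < v'' := by
          linarith [hs'.1]
        have hk : (((e0 : ℤ) + 1 : ℤ) : ℝ) = (e0 : ℝ) + 1 := by push_cast; ring
        have hpe := hpt a ((e0 : ℤ) + 1) (by rw [hk]; linarith) (by rw [hk]; linarith)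
        rw [hk] at hpe
        exact hfree (pt a) (Finset.mem_image_of_mem pt hpar) (by rw [← hpe]; exact ⟨hc1, hc2⟩)
      intro e he e' he' hanc
      rcases lt_trichotomy e e' with h | h | h
      · exact (key e e' h he he' hanc).elim
      · exact h
      · exact (key e' e h he' he hanc.symm).elim

theorem pow_aux (n S : ℕ) : (1 : ℝ) / (8 * 2 ^ S) * (1 / 2 ^ n) = 1 / 2 ^ (n + S) / 8 := by
  rw [pow_add, div_div, div_mul_div_comm, one_mul]
  congr 1
  ring

theorem two_thirds (n : ℕ) : (1 : ℝ) / 3 ^ n = (2 / 3) ^ n * (1 / 2 ^ n) := by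
  rw [div_pow]; field_simp

/-- windows of size `c / 2^n` met by at most `D` pieces of level `n` contain an interval free of
points of the achievement set -/
def Q (D : ℕ) : Prop := ∀ c : ℝ, 0 < c → ∃ n₀ : ℕ, ∀ n, n₀ ≤ n → ∀ u v : ℝ,
  c * (1 / 2 ^ n) ≤ v - u → (A n u v).card ≤ D →
  ∃ u' v', u ≤ u' ∧ u' < v' ∧ v' ≤ v ∧ ∀ z ∈ achievementSet, z ∉ Ioo u' v'

theorem Q_succ (D : ℕ) (hQ : Q D) : Q (D + 1) := by
  classical
  intro c hc
  set c₁ : ℝ := c / (2 * ((D : ℝ) + 1) + 1) with hc₁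
  have hc₁pos : 0 < c₁ := by positivity
  -- constants
  obtain ⟨s₀, hs₀⟩ := exists_pow_lt_of_lt_one (show (0 : ℝ) < c₁ / 8 by positivity)
    (show (1 / 2 : ℝ) < 1 by norm_num)
  set L : ℕ := 2 * D + 7 with hLdef
  set S : ℕ := s₀ + 2 + (D + 1) * (L + 1) with hSdef
  set η : ℝ := min (c₁ / 16) (min (1 / (8 * 2 ^ S)) (1 / (4 * ((D : ℝ) + 1)))) with hη
  have hηpos : 0 < η := by positivity
  obtain ⟨n₁, hn₁⟩ := exists_pow_lt_of_lt_one hηpos (show (2 / 3 : ℝ) < 1 by norm_num)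
  obtain ⟨n₂, hn₂⟩ := hQ c₁ hc₁pos
  obtain ⟨n₃, hn₃⟩ := hQ (1 / (2 * ((D : ℝ) + 1))) (by positivity)
  refine ⟨max n₁ (max n₂ n₃), fun n hn u v huv hcard => ?_⟩
  have hnn₁ : n₁ ≤ n := (le_max_left _ _).trans hn
  have hnn₂ : n₂ ≤ n := (le_max_left _ _).trans ((le_max_right _ _).trans hn)
  have hnn₃ : n₃ ≤ n := (le_max_right _ _).trans ((le_max_right _ _).trans hn)
  have hρ : (2 / 3 : ℝ) ^ n ≤ η :=
    (pow_le_pow_of_le_one (by norm_num) (by norm_num) hnn₁).trans hn₁.le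
  have hTn : (0 : ℝ) < 1 / 2 ^ n := by positivity
  have ht1 : (1 : ℝ) / 3 ^ n ≤ c₁ / 16 * (1 / 2 ^ n) := by
    rw [two_thirds]
    exact mul_le_mul_of_nonneg_right (hρ.trans (min_le_left _ _)) hTn.le
  have ht2 : 4 * ((1 : ℝ) / 3 ^ n) < 1 / 2 ^ (n + S) := by
    have h1 : (1 : ℝ) / 3 ^ n ≤ 1 / (8 * 2 ^ S) * (1 / 2 ^ n) := by
      rw [two_thirds]
      exact mul_le_mul_of_nonneg_right (hρ.trans ((min_le_right _ _).trans (min_le_left _ _))) hTn.le
    have h2 : (1 : ℝ) / (8 * 2 ^ S) * (1 / 2 ^ n) = 1 / 2 ^ (n + S) / 8 := pow_aux n S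
    have h3 : (0 : ℝ) < 1 / 2 ^ (n + S) := by positivity
    rw [h2] at h1
    linarith
  have ht3 : (2 / 3 : ℝ) ^ n ≤ 1 / (4 * ((D : ℝ) + 1)) :=
    hρ.trans ((min_le_right _ _).trans (min_le_right _ _))
  have huv' : u < v := by
    have : 0 < c * (1 / 2 ^ n) := by positivity
    linarith
  -- trim
  obtain ⟨u₁, v₁, hu₁, hv₁, hlen₁, hfree₁⟩ := free_interval
    ((A n u v).image (fun a => p n a) ∪ (A n u v).image (fun a => p n a + r n)) (2 * (D + 1))
    (by
      refine (Finset.card_union_le _ _).trans ?_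
      have h1 := Finset.card_image_le (s := A n u v) (f := fun a => p n a)
      have h2 := Finset.card_image_le (s := A n u v) (f := fun a => p n a + r n)
      omega) u v huv'
  have hlen₁' : c₁ * (1 / 2 ^ n) ≤ v₁ - u₁ := by
    rw [hlen₁, hc₁]
    push_cast
    rw [div_mul_eq_mul_div]
    exact div_le_div_of_nonneg_right huv (by positivity)
  have huv₁ : u₁ < v₁ := by
    have : 0 < c₁ * (1 / 2 ^ n) := by positivity
    linarith
  have hsub : A n u₁ v₁ ⊆ A n u v := by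
    intro a ha
    rw [mem_A] at ha ⊢
    exact ⟨ha.1, by linarith [ha.2.1], by linarith [ha.2.2]⟩
  by_cases hsmall : (A n u₁ v₁).card ≤ D
  · obtain ⟨u', v', h1, h2, h3, h4⟩ := hn₂ n hnn₂ u₁ v₁ hlen₁' hsmall
    exact ⟨u', v', by linarith, h2, by linarith, h4⟩
  push Not at hsmall
  have hne : (A n u₁ v₁).Nonempty := Finset.card_pos.1 (by omega)
  obtain ⟨a₁, ha₁⟩ := hne
  have hI : ((A n u₁ v₁).erase a₁).card ≤ D := by
    rw [Finset.card_erase_of_mem ha₁]
    have := Finset.card_le_card hsub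
    omega
  -- the piece a₁ contains the window
  have ha₁' := ha₁
  rw [mem_A] at ha₁'
  have hp1 : p n a₁ ≤ u₁ := by
    by_contra hcon
    push Not at hcon
    exact hfree₁ (p n a₁) (Finset.mem_union_left _ (Finset.mem_image_of_mem _ (hsub ha₁)))
      ⟨hcon, ha₁'.2.1⟩
  have hp2 : v₁ ≤ p n a₁ + r n := by
    by_contra hcon
    push Not at hcon
    exact hfree₁ (p n a₁ + r n) (Finset.mem_union_right _
      (Finset.mem_image_of_mem (fun a => p n a + r n) (hsub ha₁))) ⟨ha₁'.2.2, hcon⟩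
  -- parity
  obtain ⟨m₀, hm₀, hm₀', hev⟩ : ∃ m₀, s₀ ≤ m₀ ∧ m₀ ≤ s₀ + 1 ∧ Even (n + m₀ + 1) := by
    rcases Nat.even_or_odd (n + s₀ + 1) with h | h
    · exact ⟨s₀, le_rfl, Nat.le_succ _, h⟩
    · refine ⟨s₀ + 1, Nat.le_succ _, le_rfl, ?_⟩
      have := h.add_one
      rwa [show n + (s₀ + 1) + 1 = n + s₀ + 1 + 1 by ring]
  have hLev : Even (L + 1) := ⟨D + 4, by omega⟩
  -- a block of levels free of bad indices
  obtain ⟨j, hj, hgood⟩ : ∃ j, j ≤ D ∧ ∀ i ∈ (A n u₁ v₁).erase a₁, ∀ h,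
      n + (m₀ + j * (L + 1)) + 1 ≤ h → h ≤ n + (m₀ + j * (L + 1)) + 1 + L → ¬ Bad n a₁ i h := by
    by_contra hcon
    push Not at hcon
    have hex : ∀ j ∈ Finset.range (D + 1), ∃ i ∈ (A n u₁ v₁).erase a₁, ∃ h,
        n + (m₀ + j * (L + 1)) + 1 ≤ h ∧ h ≤ n + (m₀ + j * (L + 1)) + 1 + L ∧ Bad n a₁ i h :=
      fun j hj => hcon j (by have := Finset.mem_range.1 hj; omega)
    choose! f hf hf2 hf3 hf4 hf5 using hex
    have hcardlt : ((A n u₁ v₁).erase a₁).card < (Finset.range (D + 1)).card := by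
      rw [Finset.card_range]; omega
    obtain ⟨i, hi, k, hk, hik, heq⟩ := Finset.exists_ne_map_eq_of_card_lt_of_maps_to hcardlt
      (f := f) (fun a ha => hf a ha)
    have hmono : ∀ i k : ℕ, i < k → k ∈ Finset.range (D + 1) → i ∈ Finset.range (D + 1) →
        f i = f k → False := by
      intro i k hik hk hi heq
      have h1 : (i + 1) * (L + 1) ≤ k * (L + 1) := Nat.mul_le_mul_right _ hik
      have h2 : k * (L + 1) ≤ D * (L + 1) := by
        have := Finset.mem_range.1 hk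
        exact Nat.mul_le_mul_right _ (by omega)
      have h3 := hf4 i hi
      have h4 := hf3 k hk
      have h5 := hf4 k hk
      have h6 := hf5 i hi
      have h7 := hf5 k hk
      rw [← heq] at h7
      have h8 : (i + 1) * (L + 1) = i * (L + 1) + (L + 1) := by ring
      have h9 : (D + 1) * (L + 1) = D * (L + 1) + (L + 1) := by ring
      exact Bad_unique n a₁ (f i) (hf2 i) (hf2 k) (n + S) (by omega) (by omega) ht2 h6 h7
    rcases lt_or_gt_of_ne hik with h | h
    · exact hmono i k h hk hi heq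
    · exact hmono k i h hi hk heq.symm
  set m := m₀ + j * (L + 1) with hm
  have hev' : Even (n + m + 1) := by
    have h1 : n + m + 1 = (n + m₀ + 1) + j * (L + 1) := by rw [hm]; ring
    rw [h1]
    exact hev.add (hLev.mul_left j)
  have hms : s₀ ≤ m := hm₀.trans (Nat.le_add_right _ _)
  have hqS : n + m + 1 + L ≤ n + S := by
    have h2 : j * (L + 1) ≤ D * (L + 1) := Nat.mul_le_mul_right _ hj
    have h9 : (D + 1) * (L + 1) = D * (L + 1) + (L + 1) := by ring
    omega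
  have hpow : (1 : ℝ) / 2 ^ (n + S) ≤ 1 / 2 ^ (n + m + 1 + L) :=
    one_div_le_one_div_of_le (by positivity) (pow_le_pow_right₀ (by norm_num) hqS)
  have hpow' : (1 : ℝ) / 2 ^ (n + m + 1 + L) ≤ 1 / 2 ^ (n + m + 1) :=
    one_div_le_one_div_of_le (by positivity) (pow_le_pow_right₀ (by norm_num) (Nat.le_add_right _ _))
  have ht0 : (0 : ℝ) < 1 / 3 ^ n := by positivity
  -- size of 2^{-(n+m+1)}
  have hsz : (1 : ℝ) / 2 ^ (n + m + 1) ≤ c₁ / 8 * (1 / 2 ^ n) := by
    have h1 : (1 : ℝ) / 2 ^ (n + m + 1) = (1 / 2) ^ (m + 1) * (1 / 2 ^ n) := by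
      rw [div_pow, one_pow, add_assoc, pow_add]; field_simp
    have h2 : (1 / 2 : ℝ) ^ (m + 1) ≤ (1 / 2) ^ s₀ :=
      pow_le_pow_of_le_one (by norm_num) (by norm_num) (by omega)
    rw [h1]
    exact mul_le_mul_of_nonneg_right (h2.trans hs₀.le) hTn.le
  -- choice of the gap
  set mid := (u₁ + v₁) / 2 with hmid
  have hmid0 : 0 ≤ (mid - p n a₁) * 2 ^ (n + m) := by
    have : 0 ≤ mid - p n a₁ := by rw [hmid]; linarith
    positivity
  set k := ⌊(mid - p n a₁) * 2 ^ (n + m)⌋₊ with hk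
  have hk1 : (k : ℝ) ≤ (mid - p n a₁) * 2 ^ (n + m) := Nat.floor_le hmid0
  have hk2 : (mid - p n a₁) * 2 ^ (n + m) < k + 1 := Nat.lt_floor_add_one _
  have h2nm : (0 : ℝ) < 2 ^ (n + m) := by positivity
  have hk1' : (k : ℝ) / 2 ^ (n + m) ≤ mid - p n a₁ := by rw [div_le_iff₀ h2nm]; exact hk1
  have hk2' : mid - p n a₁ < ((k : ℝ) + 1) / 2 ^ (n + m) := by rw [lt_div_iff₀ h2nm]; exact hk2
  have hrb := r_bounds n
  have hkm : k < 2 ^ m := by
    have h1 : mid - p n a₁ < 1 / 2 ^ n := by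
      rw [hmid]; linarith [hrb.2]
    have h2 : (mid - p n a₁) * 2 ^ (n + m) < 1 / 2 ^ n * 2 ^ (n + m) :=
      mul_lt_mul_of_pos_right h1 h2nm
    have h3 : (1 : ℝ) / 2 ^ n * 2 ^ (n + m) = 2 ^ m := by rw [pow_add]; field_simp
    have h4 : (k : ℝ) < 2 ^ m := by linarith
    exact_mod_cast h4
  have hloc := gap_loc n m a₁ k hkm
  have hge := gap_even _ hev'
  have htl : (1 : ℝ) / 3 ^ (n + m + 1) ≤ 1 / 3 ^ n / 3 := three_le' n m
  have htl0 : (0 : ℝ) < 1 / 3 ^ (n + m + 1) := by positivity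
  have hsplit : (2 * (k : ℝ) + 1) / 2 ^ (n + m + 1) = k / 2 ^ (n + m) + 1 / 2 ^ (n + m + 1) := by
    rw [pow_succ]; field_simp
  have hsplit2 : ((k : ℝ) + 1) / 2 ^ (n + m) = k / 2 ^ (n + m) + 2 * (1 / 2 ^ (n + m + 1)) := by
    rw [pow_succ]; field_simp
  rw [hsplit, abs_le] at hloc
  rw [hsplit2] at hk2'
  set g := p (n + m) (a₁ * 2 ^ m + k) + r (n + m + 1) with hg
  set g' := p (n + m) (a₁ * 2 ^ m + k) + x (n + m + 1) with hg'
  have hgg : g' - g = 5 / 4 * (1 / 3 ^ (n + m + 1)) := by rw [hg, hg', ← hge]; ring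
  have hgu : u₁ ≤ g := by
    have : mid - u₁ = (v₁ - u₁) / 2 := by rw [hmid]; ring
    linarith [hloc.1]
  have hgv : g' ≤ v₁ := by
    have : v₁ - mid = (v₁ - u₁) / 2 := by rw [hmid]; ring
    linarith [hloc.2]
  -- number of pieces meeting the gap
  have hcardW : (A (n + m + 1 + L) g g').card ≤ D := by
    refine le_trans (Finset.card_le_card_of_injOn (fun e => e / 2 ^ (m + 1 + L)) ?_ ?_) hI
    · intro e he
      have he1 : e ∈ A (n + m + 1 + L) g g' := he
      rw [Finset.mem_coe, Finset.mem_erase]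
      constructor
      · intro hanc
        refine gap_own n m L a₁ k hkm ?_ e he1 ?_
        · linarith
        · rw [Nat.div_div_eq_div_mul, ← pow_add, show L + (m + 1) = m + 1 + L by ring]
          exact hanc
      · have := A_parent n (m + 1 + L) u₁ v₁ g g' hgu hgv e
          (by rw [show n + (m + 1 + L) = n + m + 1 + L by ring]; exact he1)
        exact this
    · have key : ∀ e e' : ℕ, e < e' → e ∈ A (n + m + 1 + L) g g' →
          e' ∈ A (n + m + 1 + L) g g' → e / 2 ^ (m + 1 + L) = e' / 2 ^ (m + 1 + L) → False := by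
        intro e e' hee he he' hanc
        have hpar := A_parent n (m + 1 + L) u₁ v₁ g g' hgu hgv e
          (by rw [show n + (m + 1 + L) = n + m + 1 + L by ring]; exact he)
        have hne : e / 2 ^ (m + 1 + L) ≠ a₁ := by
          intro h
          refine gap_own n m L a₁ k hkm ?_ e he ?_
          · linarith
          · rw [Nat.div_div_eq_div_mul, ← pow_add, show L + (m + 1) = m + 1 + L by ring]
            exact h
        obtain ⟨h, hh1, hh2, hh3⟩ := gap_two n m L a₁ k (e / 2 ^ (m + 1 + L)) hkm hev'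
          (by linarith) e e' hee he he' rfl hanc.symm
        exact hgood _ (Finset.mem_erase.2 ⟨hne, hpar⟩) h hh1 hh2 hh3
      intro e he e' he' hanc
      rcases lt_trichotomy e e' with h | h | h
      · exact (key e e' h he he' hanc).elim
      · exact h
      · exact (key e' e h he' he hanc.symm).elim
  have hLbig : 8 * (D + 1) ≤ 3 ^ L := by
    have h1 : ∀ d : ℕ, 8 * (d + 1) ≤ 3 ^ (2 * d + 7) := by
      intro d
      induction d with
      | zero => norm_num
      | succ d ih =>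
        have : 3 ^ (2 * (d + 1) + 7) = 9 * 3 ^ (2 * d + 7) := by ring
        omega
    exact h1 D
  obtain ⟨l', hl', u', v', hu', hv', hlen', hcard'⟩ := step2 D L (n + m + 1) hLbig g g' hgg hcardW
    (by
      have h1 : (2 / 3 : ℝ) ^ (n + m + 1 + L) ≤ (2 / 3) ^ n :=
        pow_le_pow_of_le_one (by norm_num) (by norm_num) (by omega)
      have h2 : (2 / 3 : ℝ) ^ (n + m + 1 + L) ≤ 1 / (4 * ((D : ℝ) + 1)) := h1.trans ht3
      rw [div_pow, div_le_div_iff₀ (by positivity) (by positivity)] at h2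
      linarith)
  obtain ⟨u'', v'', h1, h2, h3, h4⟩ := hn₃ l' (by omega) u' v' hlen' hcard'
  exact ⟨u'', v'', by linarith, h2, by linarith, h4⟩

/-! ### Tail sums and the cover by pieces -/

theorem r_tendsto : Tendsto r atTop (𝓝 0) := by
  have h1 : Tendsto (fun n : ℕ => (1 : ℝ) / 2 ^ n + 1 / 3 ^ n / 4) atTop (𝓝 0) := by
    have h2 : Tendsto (fun n : ℕ => (1 / 2 : ℝ) ^ n) atTop (𝓝 0) :=
      tendsto_pow_atTop_nhds_zero_of_lt_one (by norm_num) (by norm_num)
    have h3 : Tendsto (fun n : ℕ => (1 / 3 : ℝ) ^ n) atTop (𝓝 0) :=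
      tendsto_pow_atTop_nhds_zero_of_lt_one (by norm_num) (by norm_num)
    have h4 := h2.add (h3.div_const 4)
    simp only [one_div, inv_pow] at h4 ⊢
    simpa using h4
  exact squeeze_zero (fun n => (r_pos n).le) (fun n => (r_bounds n).2) h1

theorem hasSum_tail (n : ℕ) : HasSum (fun k => x (k + (n + 1))) (r n) := by
  rw [hasSum_iff_tendsto_nat_of_nonneg (fun k => x_nonneg _)]
  have h : ∀ N, ∑ k ∈ Finset.range N, x (k + (n + 1)) = r n - r (n + N) := by
    intro N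
    induction N with
    | zero => simp
    | succ N ih =>
      rw [Finset.sum_range_succ, ih, show N + (n + 1) = (n + N) + 1 by ring, ← add_assoc,
        r_succ (n + N)]
      ring
  simp only [h]
  have h1 : Tendsto (fun N => r (n + N)) atTop (𝓝 0) := by
    have := r_tendsto.comp (tendsto_add_atTop_nat n)
    refine this.congr fun N => ?_
    simp only [Function.comp, add_comm]
  simpa using h1.const_sub (r n)

theorem summable_x : Summable x := (summable_nat_add_iff 1).1 (hasSum_tail 0).summable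

theorem summable_ind (B : Set ℕ) : Summable (B.indicator x) := summable_x.indicator B

theorem tail_bounds (B : Set ℕ) (n : ℕ) : 0 ≤ ∑' k, B.indicator x (k + (n + 1)) ∧
    ∑' k, B.indicator x (k + (n + 1)) ≤ r n := by
  constructor
  · exact tsum_nonneg fun k => indicator_nonneg (fun i _ => x_nonneg i) _
  · rw [← (hasSum_tail n).tsum_eq]
    refine Summable.tsum_le_tsum (fun k => ?_) ((summable_nat_add_iff (n + 1)).2 (summable_ind B))
      (hasSum_tail n).summable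
    exact indicator_le_self' (fun i _ => x_nonneg _) _

theorem cover (z : ℝ) (hz : z ∈ achievementSet) (n : ℕ) :
    ∃ a, a < 2 ^ n ∧ p n a ≤ z ∧ z ≤ p n a + r n := by
  obtain ⟨B, hB, rfl⟩ := hz
  have h : ∀ n, ∃ a, a < 2 ^ n ∧ p n a = ∑ k ∈ Finset.range (n + 1), B.indicator x k := by
    intro n
    induction n with
    | zero =>
      refine ⟨0, by norm_num, ?_⟩
      have : (0 : ℕ) ∉ B := fun h => absurd (hB h) (by simp)
      simp [p, this]
    | succ n ih =>
      obtain ⟨a, ha, hp⟩ := ih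
      by_cases hn : n + 1 ∈ B
      · refine ⟨2 * a + 1, by rw [pow_succ]; omega, ?_⟩
        rw [p_odd, Finset.sum_range_succ, hp, indicator_of_mem hn]
      · refine ⟨2 * a, by rw [pow_succ]; omega, ?_⟩
        rw [p_even, Finset.sum_range_succ, hp, indicator_of_notMem hn, add_zero]
  obtain ⟨a, ha, hp⟩ := h n
  have hs := (summable_ind B).sum_add_tsum_nat_add (n + 1)
  have ht := tail_bounds B n
  refine ⟨a, ha, ?_, ?_⟩ <;> rw [hp] <;> linarith [ht.1, ht.2]

theorem Q_zero : Q 0 := by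
  intro c hc
  refine ⟨0, fun n _ u v huv hcard => ⟨u, v, le_rfl, ?_, le_rfl, ?_⟩⟩
  · have : 0 < c * (1 / 2 ^ n) := by positivity
    linarith
  · intro z hz hzuv
    obtain ⟨a, ha, h1, h2⟩ := cover z hz n
    have hmem : a ∈ A n u v := by
      rw [mem_A]
      exact ⟨ha, by linarith [hzuv.2], by linarith [hzuv.1]⟩
    have : 0 < (A n u v).card := Finset.card_pos.2 ⟨a, hmem⟩
    omega

theorem Q_all (D : ℕ) : Q D := by
  induction D with
  | zero => exact Q_zero
  | succ D ih => exact Q_succ D ih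

/-- every open interval contains an open interval disjoint from the achievement set -/
theorem nowhere_dense (u v : ℝ) (huv : u < v) :
    ∃ u' v', u ≤ u' ∧ u' < v' ∧ v' ≤ v ∧ ∀ z ∈ achievementSet, z ∉ Ioo u' v' := by
  classical
  have hl : 0 < v - u := by linarith
  obtain ⟨D, hD⟩ := exists_nat_gt (6 / (v - u))
  obtain ⟨n₀, hn₀⟩ := Q_all D 1 one_pos
  obtain ⟨n₁, hn₁⟩ := pow_unbounded_of_one_lt (1 / (v - u)) (by norm_num : (1 : ℝ) < 2)
  set n := max n₀ n₁ with hn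
  have h2n : (0 : ℝ) < 2 ^ n := by positivity
  have hbig : 1 ≤ (v - u) * 2 ^ n := by
    have h1 : (2 : ℝ) ^ n₁ ≤ 2 ^ n := pow_le_pow_right₀ (by norm_num) (le_max_right _ _)
    have h2 : 1 / (v - u) < 2 ^ n := lt_of_lt_of_le hn₁ h1
    rw [div_lt_iff₀ hl] at h2
    linarith
  set N := ⌊(v - u) * 2 ^ n⌋₊ with hN
  have hN1 : (N : ℝ) ≤ (v - u) * 2 ^ n := Nat.floor_le (by positivity)
  have hN2 : (v - u) * 2 ^ n < N + 1 := Nat.lt_floor_add_one _
  have hN3 : 1 ≤ N := by rw [hN]; exact (Nat.one_le_floor_iff _).2 hbig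
  have hN3' : (1 : ℝ) ≤ N := by exact_mod_cast hN3
  by_contra hcon
  -- every window is met by more than `D` pieces
  have hwin : ∀ j ∈ Finset.range N,
      D + 1 ≤ (A n (u + j / 2 ^ n) (u + (j + 1) / 2 ^ n)).card := by
    intro j hj
    by_contra hlt
    push Not at hlt
    have hj' : (j : ℝ) + 1 ≤ N := by
      have := Finset.mem_range.1 hj
      exact_mod_cast this
    have h1 : ((j : ℝ) + 1) / 2 ^ n ≤ v - u := by
      rw [div_le_iff₀ h2n]; linarith
    have h2 : (0 : ℝ) ≤ (j : ℝ) / 2 ^ n := by positivity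
    obtain ⟨u', v', h3, h4, h5, h6⟩ := hn₀ n (le_max_left _ _) (u + j / 2 ^ n) (u + (j + 1) / 2 ^ n)
      (by rw [add_div]; linarith) (by omega)
    exact hcon ⟨u', v', by linarith, h4, by linarith, h6⟩
  have hcount := Finset.card_mul_le_card_mul (s := Finset.range N) (t := Finset.range (2 ^ n))
    (fun (j a : ℕ) => p n a < u + ((j : ℝ) + 1) / 2 ^ n ∧ u + (j : ℝ) / 2 ^ n < p n a + r n)
    (m := D + 1) (n := 3) (fun j hj => hwin j hj) (by
      intro a _
      set s := Finset.bipartiteBelow (fun (j a : ℕ) => p n a < u + ((j : ℝ) + 1) / 2 ^ n ∧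
        u + (j : ℝ) / 2 ^ n < p n a + r n) (Finset.range N) a with hs
      by_cases hne : s.Nonempty
      · have hsub : s ⊆ Finset.Icc (s.min' hne) (s.min' hne + 2) := by
          intro j hj
          rw [Finset.mem_Icc]
          refine ⟨Finset.min'_le _ _ hj, ?_⟩
          have hm := Finset.min'_mem s hne
          generalize s.min' hne = i at *
          rw [hs, Finset.mem_bipartiteBelow] at hm hj
          by_contra hij
          push Not at hij
          have hij' : (i : ℝ) + 3 ≤ j := by exact_mod_cast hij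
          have h1 : ((i : ℝ) + 3) / 2 ^ n ≤ j / 2 ^ n := div_le_div_of_nonneg_right hij' h2n.le
          have h2 : ((i : ℝ) + 3) / 2 ^ n = (i + 1) / 2 ^ n + 2 * (1 / 2 ^ n) := by ring
          have h3 := r_bounds n
          have h4 := pow_le n
          have h5 : (0 : ℝ) < 1 / 2 ^ n := by positivity
          rw [h2] at h1
          linarith [hm.2.1, hj.2.2, h3.2]
        calc s.card ≤ (Finset.Icc (s.min' hne) (s.min' hne + 2)).card := Finset.card_le_card hsub
          _ = 3 := by rw [Nat.card_Icc]; omega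
      · rw [Finset.not_nonempty_iff_eq_empty] at hne
        rw [hne]; simp)
  rw [Finset.card_range, Finset.card_range] at hcount
  have hcount' : (N : ℝ) * (D + 1) ≤ 2 ^ n * 3 := by exact_mod_cast hcount
  have h1 : (v - u) * 2 ^ n ≤ 2 * N := by linarith
  have h2 : 6 < (D : ℝ) * (v - u) := by rwa [div_lt_iff₀ hl] at hD
  have h3 : (v - u) * 2 ^ n * (D + 1) ≤ 2 * N * (D + 1) :=
    mul_le_mul_of_nonneg_right h1 (by positivity)
  have h4 : 6 * 2 ^ n < (D : ℝ) * (v - u) * 2 ^ n := mul_lt_mul_of_pos_right h2 h2n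
  have h5 : 0 < (v - u) * 2 ^ n := by positivity
  linarith

/-! ### Compactness, no isolated points -/

noncomputable def Φ (ω : ℕ → Bool) : ℝ := ∑' k, (if ω k then x (k + 1) else 0)

theorem summable_x1 : Summable fun k => x (k + 1) := (hasSum_tail 0).summable

theorem Φ_cont : Continuous Φ := by
  refine continuous_tsum (u := fun k => x (k + 1)) (fun k => ?_) summable_x1 (fun k ω => ?_)
  · have h1 : Continuous fun ω : ℕ → Bool => ω k := continuous_apply k
    have h2 : Continuous fun b : Bool => (if b then x (k + 1) else 0 : ℝ) :=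
      continuous_of_discreteTopology
    exact h2.comp h1
  · split_ifs
    · rw [Real.norm_eq_abs, abs_of_nonneg (x_nonneg _)]
    · simpa using x_nonneg (k + 1)

theorem range_Φ : range Φ = achievementSet := by
  classical
  ext z
  constructor
  · rintro ⟨ω, rfl⟩
    refine ⟨{n | 1 ≤ n ∧ ω (n - 1) = true}, fun n hn => hn.1, ?_⟩
    have h := (summable_ind {n | 1 ≤ n ∧ ω (n - 1) = true}).tsum_eq_zero_add
    rw [h]
    simp only [Φ]
    rw [indicator_of_notMem (by simp)]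
    rw [zero_add]
    refine tsum_congr fun k => ?_
    by_cases hk : ω k = true
    · rw [if_pos hk, indicator_of_mem]
      exact ⟨by omega, by simpa using hk⟩
    · rw [if_neg hk, indicator_of_notMem]
      intro h
      exact hk (by simpa using h.2)
  · rintro ⟨B, hB, rfl⟩
    refine ⟨fun k => decide (k + 1 ∈ B), ?_⟩
    have h := (summable_ind B).tsum_eq_zero_add
    rw [h]
    have h0 : (0 : ℕ) ∉ B := fun h => absurd (hB h) (by simp)
    rw [indicator_of_notMem h0, zero_add]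
    simp only [Φ]
    refine tsum_congr fun k => ?_
    by_cases hk : k + 1 ∈ B
    · simp [hk]
    · simp [hk]

theorem E_compact : IsCompact achievementSet := by
  rw [← range_Φ]
  exact isCompact_range Φ_cont

theorem E_nonempty : achievementSet.Nonempty := by
  rw [← range_Φ]
  exact range_nonempty _

theorem E_perfect (z : ℝ) (hz : z ∈ achievementSet) (ε : ℝ) (hε : 0 < ε) :
    ∃ y ∈ achievementSet, y ≠ z ∧ |y - z| < ε := by
  rw [← range_Φ] at hz
  obtain ⟨ω, rfl⟩ := hz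
  -- flip a far coordinate
  have h0 : Tendsto (fun k => x (k + 1)) atTop (𝓝 0) := summable_x1.tendsto_atTop_zero
  obtain ⟨k, hk⟩ := ((tendsto_order.1 h0).2 ε hε).exists
  have hxk : 0 < x (k + 1) := x_pos _ (by omega)
  set ω' : ℕ → Bool := Function.update ω k (!ω k) with hω'
  have hsum : ∀ ω : ℕ → Bool, Summable fun j => (if ω j then x (j + 1) else 0 : ℝ) := by
    intro ω
    refine Summable.of_nonneg_of_le (fun j => ?_) (fun j => ?_) summable_x1
    · split_ifs
      · exact x_nonneg _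
      · exact le_rfl
    · split_ifs
      · exact le_rfl
      · exact x_nonneg _
  have hdiff : Φ ω' - Φ ω = (if ω' k then x (k + 1) else 0) - (if ω k then x (k + 1) else 0) := by
    unfold Φ
    rw [← (hsum ω').tsum_sub (hsum ω)]
    rw [tsum_eq_single k]
    intro j hj
    rw [hω', Function.update_of_ne hj, sub_self]
  refine ⟨Φ ω', by rw [← range_Φ]; exact mem_range_self _, ?_, ?_⟩
  · intro h
    rw [h, sub_self, hω', Function.update_self] at hdiff
    cases hb : ω k <;> simp [hb] at hdiff <;> linarith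
  · rw [hdiff, hω', Function.update_self]
    cases hb : ω k <;> simp [abs_of_pos hxk, hk]

/-! ### Compact perfect nowhere dense subsets of the line are Cantor sets -/

/-- nonempty compact sets without isolated points and with dense complement -/
def Good (K : Set ℝ) : Prop :=
  IsCompact K ∧ K.Nonempty ∧ (∀ z ∈ K, ∀ ε > 0, ∃ y ∈ K, y ≠ z ∧ |y - z| < ε) ∧
    ∀ u v : ℝ, u < v → ∃ z, u < z ∧ z < v ∧ z ∉ K

theorem Good.part {K : Set ℝ} (hK : Good K) (z : ℝ) (hz : z ∉ K) (hne : (K ∩ Iic z).Nonempty) :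
    Good (K ∩ Iic z) := by
  obtain ⟨h1, -, h3, h4⟩ := hK
  refine ⟨h1.inter_right isClosed_Iic, hne, ?_, ?_⟩
  · rintro w ⟨hw, hwz⟩ ε hε
    have hlt : w < z := lt_of_le_of_ne hwz (fun h => hz (h ▸ hw))
    obtain ⟨y, hy, hyw, hyd⟩ := h3 w hw (min ε (z - w)) (lt_min hε (by linarith))
    refine ⟨y, ⟨hy, ?_⟩, hyw, hyd.trans_le (min_le_left _ _)⟩
    have := (abs_lt.1 (hyd.trans_le (min_le_right _ _))).2
    rw [mem_Iic]; linarith
  · intro u v huv
    obtain ⟨w, h5, h6, h7⟩ := h4 u v huv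
    exact ⟨w, h5, h6, fun h => h7 h.1⟩

theorem Good.part' {K : Set ℝ} (hK : Good K) (z : ℝ) (hz : z ∉ K) (hne : (K ∩ Ici z).Nonempty) :
    Good (K ∩ Ici z) := by
  obtain ⟨h1, -, h3, h4⟩ := hK
  refine ⟨h1.inter_right isClosed_Ici, hne, ?_, ?_⟩
  · rintro w ⟨hw, hwz⟩ ε hε
    have hlt : z < w := lt_of_le_of_ne hwz (fun h => hz (h ▸ hw))
    obtain ⟨y, hy, hyw, hyd⟩ := h3 w hw (min ε (w - z)) (lt_min hε (by linarith))
    refine ⟨y, ⟨hy, ?_⟩, hyw, hyd.trans_le (min_le_left _ _)⟩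
    have := (abs_lt.1 (hyd.trans_le (min_le_right _ _))).1
    rw [mem_Ici]; linarith
  · intro u v huv
    obtain ⟨w, h5, h6, h7⟩ := h4 u v huv
    exact ⟨w, h5, h6, fun h => h7 h.1⟩

theorem Good.split {K : Set ℝ} (hK : Good K) : ∃ K₀ K₁ : Set ℝ, Good K₀ ∧ Good K₁ ∧
    K₀ ⊆ K ∧ K₁ ⊆ K ∧ K ⊆ K₀ ∪ K₁ ∧ Disjoint K₀ K₁ ∧
    Metric.diam K₀ ≤ 2 / 3 * Metric.diam K ∧ Metric.diam K₁ ≤ 2 / 3 * Metric.diam K := by
  have hlo : sInf K ∈ K := hK.1.sInf_mem hK.2.1
  have hhi : sSup K ∈ K := hK.1.sSup_mem hK.2.1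
  have hbb : BddBelow K := hK.1.bddBelow
  have hba : BddAbove K := hK.1.bddAbove
  have hlt : sInf K < sSup K := by
    obtain ⟨y, hy, hne, -⟩ := hK.2.2.1 _ hlo 1 one_pos
    exact lt_of_lt_of_le (lt_of_le_of_ne (csInf_le hbb hy) (Ne.symm hne)) (le_csSup hba hy)
  have hd : sSup K - sInf K ≤ Metric.diam K := by
    have := Metric.dist_le_diam_of_mem hK.1.isBounded hhi hlo
    rwa [Real.dist_eq, abs_of_pos (by linarith)] at this
  have hmem : ∀ y ∈ K, sInf K ≤ y ∧ y ≤ sSup K := fun y hy => ⟨csInf_le hbb hy, le_csSup hba hy⟩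
  generalize sInf K = lo at *
  generalize sSup K = hi at *
  obtain ⟨z, hz1, hz2, hz3⟩ := hK.2.2.2 (lo + (hi - lo) / 3) (hi - (hi - lo) / 3) (by linarith)
  refine ⟨K ∩ Iic z, K ∩ Ici z, hK.part z hz3 ⟨lo, hlo, ?_⟩, hK.part' z hz3 ⟨hi, hhi, ?_⟩,
    inter_subset_left, inter_subset_left, ?_, ?_, ?_, ?_⟩
  · rw [mem_Iic]; linarith
  · rw [mem_Ici]; linarith
  · intro y hy
    rcases le_total y z with h | h
    · exact Or.inl ⟨hy, h⟩
    · exact Or.inr ⟨hy, h⟩
  · rw [Set.disjoint_left]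
    rintro y ⟨hy, h1⟩ ⟨-, h2⟩
    exact hz3 (le_antisymm (mem_Iic.1 h1) (mem_Ici.1 h2) ▸ hy)
  · refine Metric.diam_le_of_forall_dist_le (by linarith) ?_
    rintro a ⟨ha, ha'⟩ b ⟨hb, hb'⟩
    rw [mem_Iic] at ha' hb'
    rw [Real.dist_eq, abs_le]
    constructor <;> linarith [(hmem a ha).1, (hmem b hb).1]
  · refine Metric.diam_le_of_forall_dist_le (by linarith) ?_
    rintro a ⟨ha, ha'⟩ b ⟨hb, hb'⟩
    rw [mem_Ici] at ha' hb'
    rw [Real.dist_eq, abs_le]
    constructor <;> linarith [(hmem a ha).2, (hmem b hb).2]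

theorem Good.homeo {X : Set ℝ} (hX : Good X) : Nonempty (X ≃ₜ cantorSet) := by
  classical
  have hsp := fun (K : Set ℝ) (hK : Good K) => hK.split
  choose! f₀ f₁ hf0 hf1 hs0 hs1 hu hdj hd0 hd1 using hsp
  let S : List Bool → Set ℝ := fun l => List.rec X (fun b _ K => bif b then f₁ K else f₀ K) l
  have hSnil : S [] = X := rfl
  have hScons : ∀ b l, S (b :: l) = bif b then f₁ (S l) else f₀ (S l) := fun b l => rfl
  clear_value S
  have hgood : ∀ l, Good (S l) := by
    intro l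
    induction l with
    | nil => rw [hSnil]; exact hX
    | cons b l ih =>
      rw [hScons]
      cases b
      · exact hf0 _ ih
      · exact hf1 _ ih
  have hanti : CantorScheme.Antitone S := by
    intro l b
    rw [hScons]
    cases b
    · exact hs0 _ (hgood l)
    · exact hs1 _ (hgood l)
  have hdisj : CantorScheme.Disjoint S := by
    intro l a b hab
    have h := hdj _ (hgood l)
    simp only [hScons]
    cases a <;> cases b
    · exact absurd rfl hab
    · exact h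
    · exact h.symm
    · exact absurd rfl hab
  have hdiam : ∀ l, Metric.diam (S l) ≤ (2 / 3) ^ l.length * Metric.diam X := by
    intro l
    induction l with
    | nil => rw [hSnil]; simp
    | cons b l ih =>
      rw [hScons, List.length_cons, pow_succ]
      have h0 := hd0 _ (hgood l)
      have h1 := hd1 _ (hgood l)
      cases b
      · simp only [cond_false]; nlinarith
      · simp only [cond_true]; nlinarith
  have htend : ∀ ω : ℕ → Bool, Tendsto (fun n => Metric.diam (S (PiNat.res ω n))) atTop (𝓝 0) := by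
    intro ω
    have h1 : Tendsto (fun n : ℕ => (2 / 3 : ℝ) ^ n * Metric.diam X) atTop (𝓝 0) := by
      have := (tendsto_pow_atTop_nhds_zero_of_lt_one (by norm_num : (0 : ℝ) ≤ 2 / 3)
        (by norm_num : (2 / 3 : ℝ) < 1)).mul_const (Metric.diam X)
      simpa using this
    refine squeeze_zero (fun n => Metric.diam_nonneg) (fun n => ?_) h1
    have := hdiam (PiNat.res ω n)
    rwa [PiNat.res_length] at this
  have hvan : CantorScheme.VanishingDiam S := by
    intro ω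
    have h1 : ∀ l, Metric.ediam (S l) = ENNReal.ofReal (Metric.diam (S l)) := by
      intro l
      rw [Metric.diam, ENNReal.ofReal_toReal]
      exact (hgood l).1.isBounded.ediam_ne_top
    simp only [h1]
    have := ENNReal.tendsto_ofReal (htend ω)
    simpa using this
  have hcl : CantorScheme.ClosureAntitone S := hanti.closureAntitone fun l => (hgood l).1.isClosed
  have huniv : (CantorScheme.inducedMap S).1 = univ :=
    hcl.map_of_vanishingDiam hvan fun l => (hgood l).2.1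
  have hcont := hvan.map_continuous
  have hinj := hdisj.map_injective
  let g : (ℕ → Bool) → ℝ := fun ω => (CantorScheme.inducedMap S).2 ⟨ω, by rw [huniv]; trivial⟩
  have hgmem : ∀ ω n, g ω ∈ S (PiNat.res ω n) := fun ω n => CantorScheme.map_mem _ n
  have hgcont : Continuous g := hcont.comp (continuous_id.subtype_mk _)
  have hginj : Function.Injective g := by
    intro a b hab
    have := hinj hab
    exact congrArg Subtype.val this
  have hgX : ∀ ω, g ω ∈ X := by
    intro ω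
    have := hgmem ω 0
    rwa [PiNat.res_zero, hSnil] at this
  have hgsurj : ∀ y ∈ X, ∃ ω, g ω = y := by
    intro y hy
    have hstep : ∀ l, y ∈ S l → ∃ b, y ∈ S (b :: l) := by
      intro l hl
      rcases hu _ (hgood l) hl with h | h
      · exact ⟨false, by rw [hScons]; exact h⟩
      · exact ⟨true, by rw [hScons]; exact h⟩
    choose! b hb using hstep
    let L : ℕ → List Bool := fun n => Nat.rec [] (fun _ l => b l :: l) n
    have hL0 : L 0 = [] := rfl
    have hLs : ∀ n, L (n + 1) = b (L n) :: L n := fun n => rfl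
    clear_value L
    have hyL : ∀ n, y ∈ S (L n) := by
      intro n
      induction n with
      | zero => rw [hL0, hSnil]; exact hy
      | succ n ih => rw [hLs]; exact hb _ ih
    have hres : ∀ n, PiNat.res (fun k => b (L k)) n = L n := by
      intro n
      induction n with
      | zero => rw [hL0, PiNat.res_zero]
      | succ n ih => rw [hLs, PiNat.res_succ, ih]
    refine ⟨fun k => b (L k), ?_⟩
    have h1 : ∀ n, dist (g fun k => b (L k)) y ≤ Metric.diam (S (PiNat.res (fun k => b (L k)) n)) := by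
      intro n
      refine Metric.dist_le_diam_of_mem (hgood _).1.isBounded (hgmem _ n) ?_
      rw [hres]; exact hyL n
    have h2 : dist (g fun k => b (L k)) y ≤ 0 := ge_of_tendsto' (htend _) h1
    exact dist_le_zero.1 h2
  let e : (ℕ → Bool) ≃ X := Equiv.ofBijective (fun ω => ⟨g ω, hgX ω⟩)
    ⟨fun a b hab => hginj (congrArg Subtype.val hab), fun ⟨y, hy⟩ => by
      obtain ⟨ω, hω⟩ := hgsurj y hy
      exact ⟨ω, Subtype.ext hω⟩⟩
  have hec : Continuous e := hgcont.subtype_mk _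
  exact ⟨(Continuous.homeoOfEquivCompactToT2 hec).symm.trans cantorSetHomeomorphNatToBool.symm⟩

theorem E_good : Good achievementSet := by
  refine ⟨E_compact, E_nonempty, E_perfect, fun u v huv => ?_⟩
  obtain ⟨u', v', h1, h2, h3, h4⟩ := nowhere_dense u v huv
  refine ⟨(u' + v') / 2, by linarith, by linarith, fun h => h4 _ h ⟨by linarith, by linarith⟩⟩

/-- The achievement set of `x_n = 2^{-n} + (-1)^n 3^{-n}` is a Cantor set: it is homeomorphic to the
middle-thirds Cantor set. -/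
theorem result : Nonempty (achievementSet ≃ₜ cantorSet) := E_good.homeo

end Pool.Agent.Results.MP_c19edd_an.CantorType
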